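import Pool.Agent.W8.ST.Stm

set_option autoImplicit false

open scoped ContDiff
open MeasureTheory Set

namespace Pool.Agent.W802.ST.NB

open Pool.Agent.W8.ST

/-- the derivative along a coordinate line -/
lemma hasDeriv {u : V 4 → ℝ} (hu : ContDiff ℝ ∞ u) (x : V 4) (i : Fin 4) (s : ℝ) :
    HasDerivAt (fun s => u (Function.update x i s)) (pd i u (Function.update x i s)) s := by
  have h1 : HasFDerivAt u (fderiv ℝ u (Function.update x i s)) (Function.update x i s) :=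
    (hu.differentiable (by simp)).differentiableAt.hasFDerivAt
  have h2 : HasDerivAt (Function.update x i) (Pi.single i (1 : ℝ)) s := hasDerivAt_update x i s
  exact h1.comp_hasDerivAt s h2

lemma contLine {u : V 4 → ℝ} (hu : ContDiff ℝ ∞ u) (x : V 4) (i : Fin 4) :
    ContDiff ℝ 1 (fun s => u (Function.update x i s)) := by
  have h1 : ContDiff ℝ 1 (Function.update x i) := contDiff_update 1 x i
  exact (hu.of_le (by simp)).comp h1

/-- the point with given coordinates -/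
def mk (p : ℝ × ℝ × ℝ × ℝ) : V 4 := ![p.1, p.2.1, p.2.2.1, p.2.2.2]

lemma mk_cont : Continuous mk := by
  refine continuous_pi (fun j => ?_)
  fin_cases j
  · exact continuous_fst
  · exact continuous_fst.comp continuous_snd
  · exact continuous_fst.comp (continuous_snd.comp continuous_snd)
  · exact continuous_snd.comp (continuous_snd.comp continuous_snd)

lemma mk0 (p : ℝ × ℝ × ℝ × ℝ) : mk p 0 = p.1 := rfl

abbrev T : Set ℝ := Ioc (-1 : ℝ) 1
abbrev P : Set ℝ := Ioc (0 : ℝ) (2 * Real.pi)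

lemma hpi : (0 : ℝ) ≤ 2 * Real.pi := by positivity

lemma integ4 {g : ℝ × ℝ × ℝ × ℝ → ℝ} (hg : Continuous g) :
    IntegrableOn g (T ×ˢ (P ×ˢ (P ×ˢ P))) := by
  refine (hg.continuousOn.integrableOn_compact
    (isCompact_Icc.prod (isCompact_Icc.prod (isCompact_Icc.prod isCompact_Icc)))
    (K := Icc (-1 : ℝ) 1 ×ˢ (Icc (0 : ℝ) (2 * Real.pi) ×ˢ (Icc (0 : ℝ) (2 * Real.pi) ×ˢ
      Icc (0 : ℝ) (2 * Real.pi))))).mono_set ?_
  exact prod_mono Ioc_subset_Icc_self (prod_mono Ioc_subset_Icc_self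
    (prod_mono Ioc_subset_Icc_self Ioc_subset_Icc_self))

lemma integ3 {g : ℝ × ℝ × ℝ → ℝ} (hg : Continuous g) : IntegrableOn g (P ×ˢ (P ×ˢ P)) := by
  refine (hg.continuousOn.integrableOn_compact
    (isCompact_Icc.prod (isCompact_Icc.prod isCompact_Icc))
    (K := (Icc (0 : ℝ) (2 * Real.pi) ×ˢ (Icc (0 : ℝ) (2 * Real.pi) ×ˢ
      Icc (0 : ℝ) (2 * Real.pi))))).mono_set ?_
  exact prod_mono Ioc_subset_Icc_self
    (prod_mono Ioc_subset_Icc_self Ioc_subset_Icc_self)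

lemma integ2 {g : ℝ × ℝ → ℝ} (hg : Continuous g) : IntegrableOn g (P ×ˢ P) := by
  refine (hg.continuousOn.integrableOn_compact
    (isCompact_Icc.prod isCompact_Icc)
    (K := (Icc (0 : ℝ) (2 * Real.pi) ×ˢ Icc (0 : ℝ) (2 * Real.pi)))).mono_set ?_
  exact prod_mono Ioc_subset_Icc_self Ioc_subset_Icc_self

lemma box_eq {G : V 4 → ℝ} (hG : Continuous G) :
    box G = ∫ p in T ×ˢ (P ×ˢ (P ×ˢ P)), G (mk p) := by
  have hg : Continuous (fun p => G (mk p)) := hG.comp mk_cont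
  unfold box
  rw [intervalIntegral.integral_of_le (by norm_num : (-1 : ℝ) ≤ 1)]
  rw [Measure.volume_eq_prod ℝ (ℝ × ℝ × ℝ), setIntegral_prod _ (integ4 hg)]
  refine setIntegral_congr_fun measurableSet_Ioc (fun t _ => ?_)
  have h3 : Continuous (fun y : ℝ × ℝ × ℝ => G (mk (t, y))) :=
    hg.comp (continuous_const.prodMk continuous_id)
  try simp only
  rw [intervalIntegral.integral_of_le hpi]
  rw [Measure.volume_eq_prod ℝ (ℝ × ℝ), setIntegral_prod _ (integ3 h3)]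
  refine setIntegral_congr_fun measurableSet_Ioc (fun a _ => ?_)
  have h2 : Continuous (fun y : ℝ × ℝ => G (mk (t, a, y))) :=
    h3.comp (continuous_const.prodMk continuous_id)
  try simp only
  rw [intervalIntegral.integral_of_le hpi]
  rw [Measure.volume_eq_prod ℝ ℝ, setIntegral_prod _ (integ2 h2)]
  refine setIntegral_congr_fun measurableSet_Ioc (fun b _ => ?_)
  try simp only
  rw [intervalIntegral.integral_of_le hpi]
  rfl

lemma nn_t {g : ℝ × ℝ × ℝ × ℝ → ℝ} (hg : Continuous g)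
    (h : ∀ y : ℝ × ℝ × ℝ, 0 ≤ ∫ t in (-1 : ℝ)..1, g (t, y)) :
    0 ≤ ∫ p in T ×ˢ (P ×ˢ (P ×ˢ P)), g p := by
  have hi := integ4 hg
  rw [IntegrableOn, Measure.volume_eq_prod ℝ (ℝ × ℝ × ℝ), ← Measure.prod_restrict] at hi
  rw [Measure.volume_eq_prod ℝ (ℝ × ℝ × ℝ), ← Measure.prod_restrict, integral_prod_symm _ hi]
  refine integral_nonneg (fun y => ?_)
  have := h y
  rw [intervalIntegral.integral_of_le (by norm_num : (-1 : ℝ) ≤ 1)] at this
  exact this

lemma nn_bc {g : ℝ × ℝ × ℝ × ℝ → ℝ} (hg : Continuous g)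
    (h : ∀ t ∈ T, ∀ a : ℝ, 0 ≤ ∫ z in P ×ˢ P, g (t, a, z)) :
    0 ≤ ∫ p in T ×ˢ (P ×ˢ (P ×ˢ P)), g p := by
  rw [Measure.volume_eq_prod ℝ (ℝ × ℝ × ℝ), setIntegral_prod _ (integ4 hg)]
  refine setIntegral_nonneg measurableSet_Ioc (fun t ht => ?_)
  have h3 : Continuous (fun y : ℝ × ℝ × ℝ => g (t, y)) :=
    hg.comp (continuous_const.prodMk continuous_id)
  rw [Measure.volume_eq_prod ℝ (ℝ × ℝ), setIntegral_prod _ (integ3 h3)]
  exact integral_nonneg (fun a => h t ht a)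

lemma nn_c {g : ℝ × ℝ × ℝ × ℝ → ℝ} (hg : Continuous g)
    (h : ∀ t ∈ T, ∀ a b : ℝ, 0 ≤ ∫ c in (0 : ℝ)..(2 * Real.pi), g (t, a, b, c)) :
    0 ≤ ∫ p in T ×ˢ (P ×ˢ (P ×ˢ P)), g p := by
  refine nn_bc hg (fun t ht a => ?_)
  have h2 : Continuous (fun y : ℝ × ℝ => g (t, a, y)) :=
    hg.comp (continuous_const.prodMk (continuous_const.prodMk continuous_id))
  rw [Measure.volume_eq_prod ℝ ℝ, setIntegral_prod _ (integ2 h2)]
  refine integral_nonneg (fun b => ?_)
  have := h t ht a b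
  rw [intervalIntegral.integral_of_le hpi] at this
  exact this

lemma nn_b {g : ℝ × ℝ × ℝ × ℝ → ℝ} (hg : Continuous g)
    (h : ∀ t ∈ T, ∀ a c : ℝ, 0 ≤ ∫ b in (0 : ℝ)..(2 * Real.pi), g (t, a, b, c)) :
    0 ≤ ∫ p in T ×ˢ (P ×ˢ (P ×ˢ P)), g p := by
  refine nn_bc hg (fun t ht a => ?_)
  have h2 : Continuous (fun y : ℝ × ℝ => g (t, a, y)) :=
    hg.comp (continuous_const.prodMk (continuous_const.prodMk continuous_id))
  have hi := integ2 h2
  rw [IntegrableOn, Measure.volume_eq_prod ℝ ℝ, ← Measure.prod_restrict] at hi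
  rw [Measure.volume_eq_prod ℝ ℝ, ← Measure.prod_restrict, integral_prod_symm _ hi]
  refine integral_nonneg (fun c => ?_)
  have := h t ht a c
  rw [intervalIntegral.integral_of_le hpi] at this
  exact this

lemma zero_of {g : ℝ × ℝ × ℝ × ℝ → ℝ} (hg : Continuous g) (h0 : ∀ p, 0 ≤ g p)
    (h : ∫ p in T ×ˢ (P ×ˢ (P ×ˢ P)), g p ≤ 0) :
    ∀ p ∈ Icc (-1 : ℝ) 1 ×ˢ (Icc (0 : ℝ) (2 * Real.pi) ×ˢ (Icc (0 : ℝ) (2 * Real.pi) ×ˢ
      Icc (0 : ℝ) (2 * Real.pi))), g p = 0 := by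
  have h1 : ∫ p in T ×ˢ (P ×ˢ (P ×ˢ P)), g p = 0 :=
    le_antisymm h (integral_nonneg h0)
  rw [setIntegral_eq_zero_iff_of_nonneg_ae (Filter.Eventually.of_forall h0) (integ4 hg)] at h1
  let O : Set (ℝ × ℝ × ℝ × ℝ) := Ioo (-1 : ℝ) 1 ×ˢ (Ioo (0 : ℝ) (2 * Real.pi) ×ˢ
    (Ioo (0 : ℝ) (2 * Real.pi) ×ˢ Ioo (0 : ℝ) (2 * Real.pi)))
  have hO : IsOpen O := isOpen_Ioo.prod (isOpen_Ioo.prod (isOpen_Ioo.prod isOpen_Ioo))
  have hsub : O ⊆ T ×ˢ (P ×ˢ (P ×ˢ P)) :=
    prod_mono Ioo_subset_Ioc_self (prod_mono Ioo_subset_Ioc_self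
      (prod_mono Ioo_subset_Ioc_self Ioo_subset_Ioc_self))
  have h2 : g =ᵐ[volume.restrict O] (fun _ => (0 : ℝ)) :=
    ae_mono (Measure.restrict_mono hsub le_rfl) h1
  have h3 : EqOn g (fun _ => (0 : ℝ)) O :=
    Measure.eqOn_open_of_ae_eq h2 hO hg.continuousOn continuousOn_const
  have h4 : EqOn g (fun _ => (0 : ℝ)) (closure O) := h3.closure hg continuous_const
  have hpi0 : (0 : ℝ) ≠ 2 * Real.pi := by positivity
  have hcl : closure O = Icc (-1 : ℝ) 1 ×ˢ (Icc (0 : ℝ) (2 * Real.pi) ×ˢ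
      (Icc (0 : ℝ) (2 * Real.pi) ×ˢ Icc (0 : ℝ) (2 * Real.pi))) := by
    show closure (_ ×ˢ _) = _
    rw [closure_prod_eq, closure_prod_eq, closure_prod_eq, closure_Ioo (by norm_num),
      closure_Ioo hpi0]
  intro p hp
  exact h4 (hcl ▸ hp)

lemma q_cont : Continuous q := by
  unfold q
  fun_prop

lemma q_pos (t : ℝ) : 0 < q t := Real.exp_pos _

lemma upd_strip {x : V 4} (hx : x ∈ strip 3) (i : Fin 3) (s : ℝ) :
    Function.update x i.succ s ∈ strip 3 := by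
  show |Function.update x i.succ s 0| ≤ 1
  rw [Function.update_of_ne (Fin.succ_ne_zero i).symm]
  exact hx

lemma periodic {lam sig : ℝ} {v : V 4 → ℝ} (hv : Sol lam sig v) {x : V 4} (hx : x ∈ strip 3)
    (i : Fin 3) : Function.Periodic (fun s => v (Function.update x i.succ s)) (2 * Real.pi) := by
  intro s
  show v (Function.update x i.succ (s + 2 * Real.pi)) = v (Function.update x i.succ s)
  rw [← hv.2.1 _ (upd_strip hx i s) i]
  congr 1
  funext j
  by_cases h : j = i.succ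
  · subst h; simp
  · simp [Function.update_of_ne h, Pi.single_eq_of_ne h]

lemma core (hEne : Ene) (hInA : InA) {lam : ℝ} (h0 : 0 ≤ lam) (h1 : lam ≤ 1 / 2) {v : V 4 → ℝ}
    (hv : Sol lam 0 v) (hpc : ∀ i : Fin 4, Continuous (pd i v)) (i : Fin 4)
    (hi : ∀ x, (pd i v x) ^ 2 ≤ (pd 2 v x) ^ 2 + (pd 3 v x) ^ 2)
    (hW : 0 ≤ ∫ p in T ×ˢ (P ×ˢ (P ×ˢ P)),
      q (mk p 0) ^ 2 * ((pd i v (mk p)) ^ 2 - (v (mk p)) ^ 2)) :
    ∀ x ∈ strip 3, v x = 0 := by
  have hvc : Continuous v := hv.1.continuous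
  have hq0 : Continuous (fun x : V 4 => q (x 0)) := q_cont.comp (continuous_apply 0)
  have hqi : Continuous (fun x : V 4 => (q (x 0))⁻¹) := hq0.inv₀ (fun x => (q_pos _).ne')
  let G : V 4 → ℝ := fun x => (pd 0 v x) ^ 2 + ((q (x 0))⁻¹) ^ 2 * (pd 1 v x) ^ 2 +
    q (x 0) ^ 2 * ((pd 2 v x) ^ 2 + (pd 3 v x) ^ 2) - lam * q (x 0) * (v x) ^ 2
  have hGc : Continuous G :=
    ((((hpc 0).pow 2).add ((hqi.pow 2).mul ((hpc 1).pow 2))).add
      ((hq0.pow 2).mul (((hpc 2).pow 2).add ((hpc 3).pow 2)))).sub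
      ((continuous_const.mul hq0).mul (hvc.pow 2))
  have hE : ∫ p in T ×ˢ (P ×ˢ (P ×ˢ P)), G (mk p) = 0 := by
    rw [← box_eq hGc]
    exact hEne lam v hv
  let W1 : V 4 → ℝ := fun x => (pd 0 v x) ^ 2 + (q (x 0) ^ 2 - lam * q (x 0)) * (v x) ^ 2 -
    1 / 8 * (v x) ^ 2
  have hW1c : Continuous W1 :=
    (((hpc 0).pow 2).add (((hq0.pow 2).sub (continuous_const.mul hq0)).mul (hvc.pow 2))).sub
      (continuous_const.mul (hvc.pow 2))
  have hW1 : 0 ≤ ∫ p in T ×ˢ (P ×ˢ (P ×ˢ P)), W1 (mk p) := by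
    refine nn_t (hW1c.comp mk_cont) (fun y => ?_)
    let x0 : V 4 := mk (0, y)
    have hup : ∀ t : ℝ, Function.update x0 0 t = mk (t, y) := by
      intro t
      funext j
      fin_cases j
      · simp [mk]
      · simp [mk, x0, Function.update]
      · simp [mk, x0, Function.update]
      · simp [mk, x0, Function.update]
    have hw : ContDiff ℝ 1 (fun t => v (Function.update x0 0 t)) := contLine hv.1 x0 0
    have hA := hInA lam (fun t => v (Function.update x0 0 t)) h0 h1 hw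
    have hfun : (fun t => v (Function.update x0 0 t)) = fun t => v (mk (t, y)) :=
      funext (fun t => by rw [hup])
    have hd : ∀ t, deriv (fun t => v (mk (t, y))) t = pd 0 v (mk (t, y)) := by
      intro t
      rw [← hfun, (hasDeriv hv.1 x0 0 t).deriv, hup]
    rw [hfun] at hA
    simp only [hd, hup] at hA
    have hc1 : Continuous (fun t : ℝ => (mk (t, y) : V 4)) :=
      mk_cont.comp (continuous_id.prodMk continuous_const)
    have hi1 : IntervalIntegrable (fun t : ℝ => (pd 0 v (mk (t, y))) ^ 2 +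
        (q t ^ 2 - lam * q t) * (v (mk (t, y))) ^ 2) volume (-1) 1 := by
      apply Continuous.intervalIntegrable
      exact (((hpc 0).comp hc1).pow 2).add (((q_cont.pow 2).sub
        (continuous_const.mul q_cont)).mul ((hvc.comp hc1).pow 2))
    have hi2 : IntervalIntegrable (fun t : ℝ => 1 / 8 * (v (mk (t, y))) ^ 2) volume (-1) 1 := by
      apply Continuous.intervalIntegrable
      exact continuous_const.mul ((hvc.comp hc1).pow 2)
    have hs : ∫ t in (-1 : ℝ)..1, W1 (mk (t, y)) =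
        (∫ t in (-1 : ℝ)..1, ((pd 0 v (mk (t, y))) ^ 2 +
          (q t ^ 2 - lam * q t) * (v (mk (t, y))) ^ 2)) -
        ∫ t in (-1 : ℝ)..1, 1 / 8 * (v (mk (t, y))) ^ 2 := by
      rw [← intervalIntegral.integral_sub hi1 hi2]
      rfl
    rw [hs, intervalIntegral.integral_const_mul]
    linarith
  have hIG := integ4 (hGc.comp mk_cont)
  have hIW1 := integ4 (hW1c.comp mk_cont)
  let W2 : V 4 → ℝ := fun x => q (x 0) ^ 2 * ((pd i v x) ^ 2 - (v x) ^ 2)
  have hW2c : Continuous W2 := (hq0.pow 2).mul (((hpc i).pow 2).sub (hvc.pow 2))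
  have hIW2 := integ4 (hW2c.comp mk_cont)
  have hv2c : Continuous (fun x : V 4 => 1 / 8 * (v x) ^ 2) := continuous_const.mul (hvc.pow 2)
  have hIv := integ4 (hv2c.comp mk_cont)
  have hsum : ∫ p in T ×ˢ (P ×ˢ (P ×ˢ P)), (W1 (mk p) + W2 (mk p) + 1 / 8 * (v (mk p)) ^ 2) ≤
      ∫ p in T ×ˢ (P ×ˢ (P ×ˢ P)), G (mk p) := by
    refine integral_mono ((hIW1.add hIW2).add hIv) hIG (fun p => ?_)
    have e1 := hi (mk p)
    have e2 : 0 ≤ ((q (mk p 0))⁻¹) ^ 2 * (pd 1 v (mk p)) ^ 2 := by positivity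
    have e3 : q (mk p 0) ^ 2 * (pd i v (mk p)) ^ 2 ≤
        q (mk p 0) ^ 2 * ((pd 2 v (mk p)) ^ 2 + (pd 3 v (mk p)) ^ 2) :=
      mul_le_mul_of_nonneg_left e1 (by positivity)
    show W1 (mk p) + W2 (mk p) + 1 / 8 * (v (mk p)) ^ 2 ≤ G (mk p)
    simp only [W1, W2, G]
    nlinarith
  have hsplit : ∫ p in T ×ˢ (P ×ˢ (P ×ˢ P)), (W1 (mk p) + W2 (mk p) + 1 / 8 * (v (mk p)) ^ 2) =
      (∫ p in T ×ˢ (P ×ˢ (P ×ˢ P)), W1 (mk p)) + (∫ p in T ×ˢ (P ×ˢ (P ×ˢ P)), W2 (mk p)) +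
        ∫ p in T ×ˢ (P ×ˢ (P ×ˢ P)), 1 / 8 * (v (mk p)) ^ 2 := by
    have s1 : ∫ p in T ×ˢ (P ×ˢ (P ×ˢ P)), (W1 (mk p) + W2 (mk p)) =
        (∫ p in T ×ˢ (P ×ˢ (P ×ˢ P)), W1 (mk p)) + ∫ p in T ×ˢ (P ×ˢ (P ×ˢ P)), W2 (mk p) :=
      integral_add hIW1 hIW2
    rw [← s1]
    exact integral_add (hIW1.add hIW2) hIv
  have hle : ∫ p in T ×ˢ (P ×ˢ (P ×ˢ P)), 1 / 8 * (v (mk p)) ^ 2 ≤ 0 := by
    have : 0 ≤ ∫ p in T ×ˢ (P ×ˢ (P ×ˢ P)), W2 (mk p) := hW
    linarith
  have hz := zero_of (hv2c.comp mk_cont) (fun p => by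
    show 0 ≤ 1 / 8 * (v (mk p)) ^ 2
    positivity) hle
  have hz' : ∀ x ∈ strip 3, (∀ j : Fin 3, x j.succ ∈ Ico (0 : ℝ) (2 * Real.pi)) → v x = 0 := by
    intro x hx hj
    have hm : mk (x 0, x 1, x 2, x 3) = x := by
      funext j
      fin_cases j <;> rfl
    have hx' : |x 0| ≤ 1 := hx
    have h := hz (x 0, x 1, x 2, x 3) ⟨abs_le.1 hx', Ico_subset_Icc_self (hj 0),
      Ico_subset_Icc_self (hj 1), Ico_subset_Icc_self (hj 2)⟩
    simp only [Function.comp, hm] at h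
    have h' : (v x) ^ 2 = 0 := by linarith
    exact pow_eq_zero_iff (two_ne_zero) |>.1 h'
  have hpos : (0 : ℝ) < 2 * Real.pi := by positivity
  intro x hx
  obtain ⟨y1, hy1, e1⟩ := (periodic hv hx 0).exists_mem_Ico₀ hpos (x (Fin.succ 0))
  obtain ⟨y2, hy2, e2⟩ := (periodic hv (upd_strip hx 0 y1) 1).exists_mem_Ico₀ hpos
    ((Function.update x (Fin.succ 0) y1) (Fin.succ 1))
  obtain ⟨y3, hy3, e3⟩ := (periodic hv (upd_strip (upd_strip hx 0 y1) 1 y2) 2).exists_mem_Ico₀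
    hpos ((Function.update (Function.update x (Fin.succ 0) y1) (Fin.succ 1) y2) (Fin.succ 2))
  simp only [Function.update_eq_self] at e1 e2 e3
  rw [e1, e2, e3]
  refine hz' _ (upd_strip (upd_strip (upd_strip hx 0 y1) 1 y2) 2 y3) ?_
  intro j
  fin_cases j
  · simpa [Function.update] using hy1
  · simpa [Function.update] using hy2
  · simpa [Function.update] using hy3

/-- Wirtinger along a coordinate line -/
lemma wline (hWir : Wir) {lam : ℝ} {u : V 4 → ℝ} (hu : Sol lam 0 u) (i : Fin 3)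
    (hv : Sol lam 0 (pd i.succ u)) {x : V 4} (hx : x ∈ strip 3) :
    ∫ s in (0 : ℝ)..(2 * Real.pi), (pd i.succ u (Function.update x i.succ s)) ^ 2 ≤
      ∫ s in (0 : ℝ)..(2 * Real.pi),
        (pd i.succ (pd i.succ u) (Function.update x i.succ s)) ^ 2 := by
  have hpos : (0 : ℝ) < 2 * Real.pi := by positivity
  have hper := periodic hv hx i
  have hperu := periodic hu hx i
  have hc := contLine hv.1 x i.succ
  have h := hWir (2 * Real.pi) (fun s => pd i.succ u (Function.update x i.succ s)) hpos hc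
    (by have := hper 0; simpa using this) (by
      rw [intervalIntegral.integral_eq_sub_of_hasDerivAt
        (f := fun s => u (Function.update x i.succ s))
        (fun s _ => hasDeriv hu.1 x i.succ s) (hc.continuous.intervalIntegrable _ _)]
      have := hperu 0
      simp only [zero_add] at this
      rw [this, sub_self])
  have hd : ∀ s, deriv (fun s => pd i.succ u (Function.update x i.succ s)) s =
      pd i.succ (pd i.succ u) (Function.update x i.succ s) :=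
    fun s => (hasDeriv hv.1 x i.succ s).deriv
  simp only [hd] at h
  rw [div_self hpos.ne', one_pow, one_mul] at h
  exact h

lemma wline' (hWir : Wir) {lam : ℝ} {u : V 4 → ℝ} (hu : Sol lam 0 u) (i : Fin 3)
    (hv : Sol lam 0 (pd i.succ u)) (hc2 : Continuous (pd i.succ (pd i.succ u)))
    {x : V 4} (hx : x ∈ strip 3) (k : ℝ) (hk : 0 ≤ k) :
    0 ≤ ∫ s in (0 : ℝ)..(2 * Real.pi),
        k * ((pd i.succ (pd i.succ u) (Function.update x i.succ s)) ^ 2 -
          (pd i.succ u (Function.update x i.succ s)) ^ 2) := by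
  have h := wline hWir hu i hv hx
  have hcu : Continuous (fun s => Function.update x i.succ s) :=
    (contDiff_update (𝕜 := ℝ) 1 x i.succ).continuous
  have i1 : IntervalIntegrable (fun s => (pd i.succ (pd i.succ u)
      (Function.update x i.succ s)) ^ 2) volume 0 (2 * Real.pi) :=
    ((hc2.comp hcu).pow 2).intervalIntegrable _ _
  have i2 : IntervalIntegrable (fun s => (pd i.succ u
      (Function.update x i.succ s)) ^ 2) volume 0 (2 * Real.pi) :=
    ((hv.1.continuous.comp hcu).pow 2).intervalIntegrable _ _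
  rw [intervalIntegral.integral_const_mul, intervalIntegral.integral_sub i1 i2]
  exact mul_nonneg hk (sub_nonneg.2 h)

theorem NB_proof : NB := by
  intro hComm hOpD hEne hWir hInA lam u h0 h1 hu
  have hD := (hOpD hComm).1 lam 0 u hu
  have hC : ∀ w : V 4 → ℝ, ContDiff ℝ ∞ w → ∀ i, ContDiff ℝ ∞ (pd i w) := fun w hw => (hComm w hw).1
  have hq0 : Continuous (fun x : V 4 => q (x 0)) := q_cont.comp (continuous_apply 0)
  -- the two directions
  have h2 : ∀ x ∈ strip 3, pd 2 u x = 0 := by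
    have hv : Sol lam 0 (pd 2 u) := hD 1
    have hpc : ∀ i : Fin 4, Continuous (pd i (pd 2 u)) := fun i => (hC _ hv.1 i).continuous
    refine core hEne hInA h0 h1 hv hpc 2 (fun x => by nlinarith [sq_nonneg (pd 3 (pd 2 u) x)]) ?_
    have hW2c : Continuous (fun x : V 4 => q (x 0) ^ 2 *
        ((pd 2 (pd 2 u) x) ^ 2 - (pd 2 u x) ^ 2)) :=
      (hq0.pow 2).mul (((hpc 2).pow 2).sub (hv.1.continuous.pow 2))
    refine nn_b (hW2c.comp mk_cont) (fun t ht a c => ?_)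
    let x0 : V 4 := mk (t, a, 0, c)
    have hup : ∀ b : ℝ, Function.update x0 2 b = mk (t, a, b, c) := by
      intro b
      funext j
      fin_cases j <;> simp [mk, x0, Function.update]
    have hx0 : x0 ∈ strip 3 := by
      show |t| ≤ 1
      exact abs_le.2 ⟨ht.1.le, ht.2⟩
    have h := wline' hWir hu 1 hv (hpc 2) hx0 (q t ^ 2) (by positivity)
    have e : (Fin.succ 1 : Fin 4) = 2 := rfl
    simp only [e, hup] at h
    exact h
  have h3 : ∀ x ∈ strip 3, pd 3 u x = 0 := by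
    have hv : Sol lam 0 (pd 3 u) := hD 2
    have hpc : ∀ i : Fin 4, Continuous (pd i (pd 3 u)) := fun i => (hC _ hv.1 i).continuous
    refine core hEne hInA h0 h1 hv hpc 3 (fun x => by nlinarith [sq_nonneg (pd 2 (pd 3 u) x)]) ?_
    have hW2c : Continuous (fun x : V 4 => q (x 0) ^ 2 *
        ((pd 3 (pd 3 u) x) ^ 2 - (pd 3 u x) ^ 2)) :=
      (hq0.pow 2).mul (((hpc 3).pow 2).sub (hv.1.continuous.pow 2))
    refine nn_c (hW2c.comp mk_cont) (fun t ht a b => ?_)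
    let x0 : V 4 := mk (t, a, b, 0)
    have hup : ∀ c : ℝ, Function.update x0 3 c = mk (t, a, b, c) := by
      intro c
      funext j
      fin_cases j <;> simp [mk, x0, Function.update]
    have hx0 : x0 ∈ strip 3 := by
      show |t| ≤ 1
      exact abs_le.2 ⟨ht.1.le, ht.2⟩
    have h := wline' hWir hu 2 hv (hpc 3) hx0 (q t ^ 2) (by positivity)
    have e : (Fin.succ 2 : Fin 4) = 3 := rfl
    simp only [e, hup] at h
    exact h
  exact fun x hx => ⟨h2 x hx, h3 x hx⟩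

end Pool.Agent.W802.ST.NB
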